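import Pool.Agent.Lib.MP_acafa7_al.F.IfaceC

/-! LS (5.2): almost fixed points exist near every point. -/

namespace MSG.F66

open Classical

theorem dsm {V : Type} {G : SimpleGraph V} {B : Type} [Group B] [MulAction B V] (hA : Aut G B)
    (b : B) (x y : V) : G.dist (b • x) (b • y) = G.dist x y := by
  have key : ∀ (b : B) (u v : V) (w : G.Walk u v), ∃ w' : G.Walk (b • u) (b • v),
      w'.length = w.length := by
    intro b u v w
    induction w with
    | nil => exact ⟨SimpleGraph.Walk.nil, rfl⟩
    | cons h w ih =>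
      obtain ⟨w', hw'⟩ := ih
      exact ⟨SimpleGraph.Walk.cons ((hA b _ _).2 h) w', by simp [hw']⟩
  by_cases hr : G.Reachable x y
  · apply le_antisymm
    · obtain ⟨w, hw⟩ := hr.exists_walk_length_eq_dist
      obtain ⟨w', hw'⟩ := key b x y w
      rw [← hw, ← hw']
      exact SimpleGraph.dist_le w'
    · obtain ⟨w0, _⟩ := hr.exists_walk_length_eq_dist
      obtain ⟨w1, _⟩ := key b x y w0
      obtain ⟨w, hw⟩ := w1.reachable.exists_walk_length_eq_dist
      obtain ⟨w', hw'⟩ := key b⁻¹ _ _ w
      have := SimpleGraph.dist_le w'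
      rw [hw', hw] at this
      simpa using this
  · have hr' : ¬ G.Reachable (b • x) (b • y) := by
      rintro ⟨w⟩
      obtain ⟨w', _⟩ := key b⁻¹ _ _ w
      apply hr
      have := w'.reachable
      simpa using this
    rw [SimpleGraph.dist_eq_zero_of_not_reachable hr,
      SimpleGraph.dist_eq_zero_of_not_reachable hr']

/-- one step of the induction on the order of the group -/
theorem step {V : Type} {G : SimpleGraph V} {C : ℕ} (hC : CoarseHyp G C) (hPE : PropEStatement)
    (p : ℕ) [Fact p.Prime] (B : Type) [Group B] [Fintype B] [MulAction B V] (hA : Aut G B)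
    (hcom : ∀ a b : B, a * b = b * a) (hp : IsPGroup p B) (B' : Subgroup B) (hi : B'.index = p)
    (c' L' : ℕ) (hL : LSP G B' c' L') : ∃ c L, LSP G B c L := by
  have hp1 : 1 < p := (Fact.out : p.Prime).one_lt
  have hz : ∃ z : B, z ∉ B' := by
    by_contra h
    push Not at h
    have : B' = ⊤ := by
      rw [Subgroup.eq_top_iff']
      exact h
    rw [this, Subgroup.index_top] at hi
    omega
  obtain ⟨z, hz⟩ := hz
  obtain ⟨CB, hCB⟩ := hPE V G C hC p B hA hcom hp B' z hi hz c'
  -- constants
  set M : ℕ := 2 * L' + 1 with hM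
  set A : ℕ := CB * M ^ 2 with hAdef
  set L2 : ℕ := L' + CB * M with hL2
  have one : ∀ (x : V) (K : ℕ), Dp G B x K → ∃ (u : V) (m : ℕ), G.dist x u ≤ L2 * (1 + K) ∧
      m ^ 3 ≤ A * (1 + K) ^ 2 ∧ Dp G B u m := by
    intro x K hx
    have hx' : Dp G B' x K := fun b => hx (b : B)
    obtain ⟨x1, hx1, hd1⟩ := hL x K hx'
    have hd2 : G.dist x1 (z • x1) ≤ M * (1 + K) := by
      have t1 := hC.conn.dist_triangle (u := x1) (v := x) (w := z • x1)
      have t2 := hC.conn.dist_triangle (u := x) (v := z • x) (w := z • x1)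
      have t3 : G.dist (z • x) (z • x1) = G.dist x x1 := dsm hA z x x1
      have t4 := hx z
      have t5 : G.dist x1 x = G.dist x x1 := SimpleGraph.dist_comm
      rw [hM]
      nlinarith
    obtain ⟨u, hu1, m, hm, hu2⟩ := hCB x1 (M * (1 + K)) (by
        have : 0 < M * (1 + K) := by positivity
        omega) (fun b hb => hx1 ⟨b, hb⟩) hd2
    refine ⟨u, m, ?_, ?_, hu2⟩
    · have t1 := hC.conn.dist_triangle (u := x) (v := x1) (w := u)
      calc G.dist x u ≤ G.dist x x1 + G.dist x1 u := t1
        _ ≤ L' * (1 + K) + CB * (M * (1 + K)) := Nat.add_le_add hd1 hu1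
        _ = L2 * (1 + K) := by rw [hL2]; ring
    · calc m ^ 3 ≤ CB * (M * (1 + K)) ^ 2 := hm
        _ = A * (1 + K) ^ 2 := by rw [hAdef]; ring
  refine ⟨8 * A, 4 * L2, ?_⟩
  have main : ∀ (K : ℕ) (x : V), Dp G B x K →
      ∃ x', Dp G B x' (8 * A) ∧ G.dist x x' ≤ 4 * L2 * (1 + K) := by
    intro K
    induction K using Nat.strong_induction_on with
    | _ K ih =>
      intro x hx
      by_cases hK : K ≤ 8 * A
      · exact ⟨x, fun b => (hx b).trans hK, by simp⟩
      · push Not at hK
        obtain ⟨u, m, hxu, hm, hu⟩ := one x K hx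
        have hmK : 2 * m ≤ K := by
          by_contra h
          push Not at h
          have h1 : 1 + K ≤ 2 * m := by omega
          have h2 : (1 + K) ^ 3 ≤ (2 * m) ^ 3 := Nat.pow_le_pow_left h1 3
          have h3 : (1 + K) ^ 3 ≤ 8 * A * (1 + K) ^ 2 := by
            calc (1 + K) ^ 3 ≤ (2 * m) ^ 3 := h2
              _ = 8 * m ^ 3 := by ring
              _ ≤ 8 * (A * (1 + K) ^ 2) := Nat.mul_le_mul_left 8 hm
              _ = 8 * A * (1 + K) ^ 2 := by ring
          have h4 : (1 + K) * (1 + K) ^ 2 ≤ 8 * A * (1 + K) ^ 2 := by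
            calc (1 + K) * (1 + K) ^ 2 = (1 + K) ^ 3 := by ring
              _ ≤ _ := h3
          have h5 : 1 + K ≤ 8 * A := Nat.le_of_mul_le_mul_right h4 (by positivity)
          omega
        have hK1 : 1 ≤ K := by omega
        obtain ⟨x', hx', hd'⟩ := ih m (by omega) u hu
        refine ⟨x', hx', ?_⟩
        have t1 := hC.conn.dist_triangle (u := x) (v := u) (w := x')
        have e1 : L2 * (1 + K) + 4 * L2 * (1 + m) ≤ 4 * L2 * (1 + K) := by
          have : (1 + K) + 4 * (1 + m) ≤ 4 * (1 + K) := by omega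
          calc L2 * (1 + K) + 4 * L2 * (1 + m) = L2 * ((1 + K) + 4 * (1 + m)) := by ring
            _ ≤ L2 * (4 * (1 + K)) := Nat.mul_le_mul_left _ this
            _ = 4 * L2 * (1 + K) := by ring
        omega
  intro x K hx
  exact main K x hx

theorem ls_st (hPE : PropEStatement) : LSStatement := by
  intro V G C hC p _ B _ _ _ hA hcom hp
  have gen : ∀ (n : ℕ) (B : Type) [Group B] [Fintype B] [MulAction B V], Aut G B →
      (∀ a b : B, a * b = b * a) → IsPGroup p B → Nat.card B = p ^ n → ∃ c L, LSP G B c L := by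
    intro n
    induction n with
    | zero =>
      intro B _ _ _ hA hcom hp hn
      have hsub : Subsingleton B := by
        rw [pow_zero] at hn
        exact (Nat.card_eq_one_iff_unique.1 hn).1
      refine ⟨0, 0, ?_⟩
      intro x K _
      refine ⟨x, ?_, by simp⟩
      intro b
      have : b = 1 := Subsingleton.elim _ _
      rw [this, one_smul, SimpleGraph.dist_self]
    | succ n ih =>
      intro B _ _ _ hA hcom hp hn
      obtain ⟨B', hB'⟩ := Sylow.exists_subgroup_card_pow_prime p (G := B) (n := n)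
        (by rw [hn]; exact pow_dvd_pow p (Nat.le_succ n))
      have hpp : 0 < p := (Fact.out : p.Prime).pos
      have hi : B'.index = p := by
        have h := Subgroup.card_mul_index B'
        rw [hB', hn, pow_succ] at h
        exact Nat.eq_of_mul_eq_mul_left (by positivity) h
      have hA' : Aut G B' := fun b x y => hA (b : B) x y
      have hcom' : ∀ a b : B', a * b = b * a := fun a b => Subtype.ext (hcom a b)
      obtain ⟨c', L', hL⟩ := ih B' hA' hcom' (hp.to_subgroup B') hB'
      exact step hC hPE p B hA hcom hp B' hi c' L' hL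
  obtain ⟨n, hn⟩ := IsPGroup.iff_card.1 hp
  exact gen n B hA hcom hp hn

end MSG.F66
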